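import Pool.Agent.FT.Final

/-!
# MP_5ccad8_pr: the number of non-leaf vertices of the random friend tree

Full positive answer to Q2 (and to the existence part of Q1, with bounds for the exponent): there
is a constant `μ` with `9/20 ≤ μ ≤ 3/4` such that for every realization of the random friend tree
`n ^ (-μ) * X_n` converges almost surely to a random variable `X` which is almost surely
positive and is not almost surely constant, where `X_n` is the number of vertices of degree at
least two of `T_n`; in particular `log X_n / log n → μ` almost surely. The process is also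
proved to exist.

Proof (new): the non-leaf vertices, together with their numbers of leaf neighbours, form a Markov
chain with additive observables. Explicit potentials (a finite table) for a modified chain in
which the missing part of the tree is replaced by an adversary give, uniformly over all initial
configurations, growth of the expected number of descendants of one edge between `n ^ (9/20)` and
`n ^ (3/4)`; this leads to a submultiplicative and a supermultiplicative inequality for the mean,
to an exponent `μ`, to an eigenfunction (by a renewal argument and a maximum principle), and to a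
martingale which is comparable with `X_n / n ^ μ`. A gradient bound for the additive functionals
gives `L²` bounds and the law of large numbers.
-/

open MeasureTheory Filter Topology

namespace Pool.Agent.Results.MP_5ccad8_pr.FriendTreeLimit

/-- `n ^ (-μ) * X_n` converges almost surely to a positive, not almost surely constant, random
variable. -/
theorem result : ∃ μ : ℝ, 9 / 20 ≤ μ ∧ μ ≤ 3 / 4 ∧
    (∀ (Ω : Type) [MeasurableSpace Ω] (P : Measure Ω) [IsProbabilityMeasure P]
      (V W : ℕ → Ω → ℕ), FT.IsFriendTree P V W →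
      (∀ᵐ ω ∂P, Tendsto (fun n : ℕ => Real.log (FT.nonleaf (fun k => W k ω) n) / Real.log n)
          atTop (𝓝 μ)) ∧
      ∃ X : Ω → ℝ, Measurable X ∧ (∀ᵐ ω ∂P, 0 < X ω) ∧ (∀ c : ℝ, ¬ ∀ᵐ ω ∂P, X ω = c) ∧
        ∀ᵐ ω ∂P, Tendsto
          (fun n : ℕ => (n : ℝ) ^ (-μ) * (FT.nonleaf (fun k => W k ω) n : ℝ)) atTop (𝓝 (X ω))) ∧
    ∃ (Ω : Type) (_ : MeasurableSpace Ω) (P : Measure Ω) (_ : IsProbabilityMeasure P)
      (V W : ℕ → Ω → ℕ), FT.IsFriendTree P V W := by
  obtain ⟨μ, h1, h2, h3, h4⟩ := FT.result
  refine ⟨μ, h1, h2, ?_, h4⟩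
  intro Ω _ P _ V W hVW
  obtain ⟨X, hXm, hX0, hXc, hXl⟩ := h3 P V W hVW
  have key : ∀ᵐ ω ∂P, Tendsto
      (fun n : ℕ => (n : ℝ) ^ (-μ) * (FT.nonleaf (fun k => W k ω) n : ℝ)) atTop (𝓝 (X ω)) := by
    filter_upwards [hXl] with ω hω
    refine hω.congr fun n => ?_
    rw [Real.rpow_neg (Nat.cast_nonneg n), div_eq_mul_inv, mul_comm]
  refine ⟨?_, X, hXm, hX0, hXc, key⟩
  filter_upwards [key, hX0] with ω hω hpos
  have hlog : Tendsto (fun n : ℕ =>
      Real.log ((n : ℝ) ^ (-μ) * (FT.nonleaf (fun k => W k ω) n : ℝ))) atTop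
      (𝓝 (Real.log (X ω))) := (Real.continuousAt_log hpos.ne').tendsto.comp hω
  have hn : Tendsto (fun n : ℕ => Real.log (n : ℝ)) atTop atTop :=
    Real.tendsto_log_atTop.comp tendsto_natCast_atTop_atTop
  have h0 : Tendsto (fun n : ℕ =>
      Real.log ((n : ℝ) ^ (-μ) * (FT.nonleaf (fun k => W k ω) n : ℝ)) / Real.log (n : ℝ)) atTop
      (𝓝 0) := hlog.div_atTop hn
  have h5 : Tendsto (fun n : ℕ => μ +
      Real.log ((n : ℝ) ^ (-μ) * (FT.nonleaf (fun k => W k ω) n : ℝ)) / Real.log (n : ℝ)) atTop
      (𝓝 (μ + 0)) := tendsto_const_nhds.add h0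
  rw [add_zero] at h5
  refine h5.congr' ?_
  have ev := hω.eventually (lt_mem_nhds hpos)
  filter_upwards [ev, eventually_gt_atTop 1] with n hn1 hn2
  have hn0 : (0 : ℝ) < n := by exact_mod_cast (by omega : 0 < n)
  have hln : Real.log (n : ℝ) ≠ 0 := (Real.log_pos (by exact_mod_cast hn2)).ne'
  have hp : (0 : ℝ) < (n : ℝ) ^ (-μ) := Real.rpow_pos_of_pos hn0 _
  have hq : (FT.nonleaf (fun k => W k ω) n : ℝ) ≠ 0 := by
    intro h
    rw [h, mul_zero] at hn1
    exact lt_irrefl _ hn1
  rw [Real.log_mul hp.ne' hq, Real.log_rpow hn0]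
  field_simp
  ring

end Pool.Agent.Results.MP_5ccad8_pr.FriendTreeLimit
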